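import Pool.Agent.Run7.h206.QP.Main

/-! # Polygons: all sides and all distances -/

set_option autoImplicit false

namespace Run7.h206.QP

open Run7.h206.SV Run7.h206.QB
open scoped Classical
open Pool.Agent.W840.CT (cn)

theorem sy_CF (i : Fin 4) {n : ℕ} {w : List P} (hw : w ∈ CF n) : w.map (sy i) ∈ CF n := by
  rw [mem_CF] at hw ⊢
  refine ⟨(sy_ok i).mem_SF hw.1, fun b hb => ?_⟩
  rw [List.getLast?_map, Option.map_eq_some_iff] at hb
  obtain ⟨a, ha, rfl⟩ := hb
  have h1 := hw.2 a ha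
  rw [adj_D2] at h1 ⊢
  rw [← (sy_ok i).zero, (sy_ok i).dist]
  exact h1

theorem sy_sumC (i : Fin 4) (n : ℕ) (F : List P → ℝ) :
    ∑ l ∈ CF n, F (l.map (sy i)) = ∑ l ∈ CF n, F l := by
  refine Finset.sum_nbij' (fun l => l.map (sy i)) (fun l => l.map (sy i))
    (fun l hl => sy_CF i hl) (fun l hl => sy_CF i hl) (fun l _ => (sy_ok i).map_map l)
    (fun l _ => (sy_ok i).map_map l) (fun l _ => rfl)

theorem all_sidesC : ∃ K : ℝ, 0 ≤ K ∧ ∀ M : ℕ, 2 ≤ M → ∀ n : ℕ, n = 2 * M - 1 →
    (∀ x : ℝ, 0 ≤ x → (((CF n).filter (fun w => Bad K x w)).card : ℝ) ≤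
      Real.exp (-x) * (CF n).card) ∧
    ∀ (i : Fin 4) (h : ℕ), ∑ w ∈ CF n, ((St h (w.map (sy i))).card : ℝ) ≤
      Real.exp (K * Real.log (h + 2) ^ 2) * (CF n).card := by
  obtain ⟨K, hK, hsideC⟩ := sideC
  refine ⟨K + 6, by positivity, fun M hM n hnM => ?_⟩
  have hside : ∀ h : ℕ, _ := fun h => hsideC M h hM
  rw [← hnM] at hside
  refine ⟨fun x hx => ?_, fun i h => ?_⟩
  · have hlog2 := Real.log_two_gt_d9
    -- the numbers `x + 2 log (h + 2) + log 4`
    have hexp : ∀ h : ℕ, Real.exp (-(x + 2 * Real.log (h + 2) + Real.log 4)) =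
        Real.exp (-x) / 4 * (1 / ((h : ℝ) + 2) ^ 2) := by
      intro h
      have h0 : (0 : ℝ) < (h : ℝ) + 2 := by positivity
      rw [show -(x + 2 * Real.log ((h : ℝ) + 2) + Real.log 4) =
        -x + -(((2 : ℕ) : ℝ) * Real.log ((h : ℝ) + 2)) + -Real.log 4 by push_cast; ring,
        Real.exp_add, Real.exp_add, Real.exp_neg (Real.log 4), Real.exp_log (by norm_num),
        Real.exp_neg (((2 : ℕ) : ℝ) * _), Real.exp_nat_mul, Real.exp_log h0]
      ring
    have hbig : ∀ h : ℕ, (1 + (x + 2 * Real.log (h + 2) + Real.log 4)) *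
        Real.exp (K * Real.log (h + 2) ^ 2) ≤
        (1 + x) * Real.exp ((K + 6) * Real.log (h + 2) ^ 2) := by
      intro h
      have h0 : (2 : ℝ) ≤ (h : ℝ) + 2 := by linarith [Nat.cast_nonneg (α := ℝ) h]
      set L := Real.log ((h : ℝ) + 2) with hL
      have hL2 : Real.log 2 ≤ L := Real.log_le_log (by norm_num) h0
      have h4 : Real.log 4 = 2 * Real.log 2 := by
        rw [show (4 : ℝ) = 2 ^ 2 by norm_num, Real.log_pow]
        push_cast
        ring
      have e1 : 1 + 2 * L + Real.log 4 ≤ Real.exp (6 * L ^ 2) := by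
        have e2 := Real.add_one_le_exp (6 * L ^ 2)
        have e3 : 4 * L ≤ 6 * L ^ 2 := by nlinarith
        rw [h4]
        linarith
      have e5 : 1 + (x + 2 * L + Real.log 4) ≤ (1 + x) * Real.exp (6 * L ^ 2) := by
        have e6 : 0 ≤ 2 * L + Real.log 4 := by rw [h4]; linarith
        calc 1 + (x + 2 * L + Real.log 4) ≤ (1 + x) * (1 + 2 * L + Real.log 4) := by nlinarith
          _ ≤ _ := by gcongr
      calc (1 + (x + 2 * L + Real.log 4)) * Real.exp (K * L ^ 2)
          ≤ ((1 + x) * Real.exp (6 * L ^ 2)) * Real.exp (K * L ^ 2) := by gcongr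
        _ = _ := by
            rw [mul_assoc, ← Real.exp_add]
            congr 2
            ring
    -- for large distances there is nothing to prove
    have htriv : ∀ h : ℕ, n ≤ h → ∀ w ∈ CF n, ∀ i : Fin 4, ((St h (w.map (sy i))).card : ℝ) ≤
        (1 + x) * Real.exp ((K + 6) * Real.log (h + 2) ^ 2) := by
      intro h hn w hw i
      have h1 : ((St h (w.map (sy i))).card : ℝ) ≤ n + 1 := by exact_mod_cast card_St_triv (mem_CF.1 hw).1 i
      have h0 : (2 : ℝ) ≤ (h : ℝ) + 2 := by linarith [Nat.cast_nonneg (α := ℝ) h]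
      set L := Real.log ((h : ℝ) + 2) with hL
      have hL2 : Real.log 2 ≤ L := Real.log_le_log (by norm_num) h0
      have h2 : (h : ℝ) + 2 = Real.exp L := (Real.exp_log (by linarith)).symm
      have h3 : (n : ℝ) ≤ h := by exact_mod_cast hn
      have h4 : Real.exp L ≤ Real.exp ((K + 6) * L ^ 2) := by
        apply Real.exp_le_exp.2
        have : 0 ≤ K * L ^ 2 := by positivity
        nlinarith
      have h5 := Real.exp_pos ((K + 6) * L ^ 2)
      nlinarith
    have hsub : (CF n).filter (fun w => Bad (K + 6) x w) ⊆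
        ((Finset.univ : Finset (Fin 4)) ×ˢ Finset.range n).biUnion (fun q =>
          (CF n).filter (fun w => (1 + (x + 2 * Real.log (q.2 + 2) + Real.log 4)) *
            Real.exp (K * Real.log (q.2 + 2) ^ 2) < ((St q.2 (w.map (sy q.1))).card : ℝ))) := by
      intro w hw
      obtain ⟨hw, i, h, hb⟩ := Finset.mem_filter.1 hw
      rw [Finset.mem_biUnion]
      have hh : h < n := by
        by_contra hcon
        have := htriv h (not_lt.1 hcon) w hw i
        linarith
      exact ⟨(i, h), Finset.mem_product.2 ⟨Finset.mem_univ _, Finset.mem_range.2 hh⟩,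
        Finset.mem_filter.2 ⟨hw, (hbig h).trans_lt hb⟩⟩
    have h1 := (Finset.card_le_card hsub).trans Finset.card_biUnion_le
    have h2 : (((CF n).filter (fun w => Bad (K + 6) x w)).card : ℝ) ≤
        ∑ q ∈ (Finset.univ : Finset (Fin 4)) ×ˢ Finset.range n,
          (((CF n).filter (fun w => (1 + (x + 2 * Real.log (q.2 + 2) + Real.log 4)) *
            Real.exp (K * Real.log (q.2 + 2) ^ 2) < ((St q.2 (w.map (sy q.1))).card : ℝ))).card : ℝ) := by
      exact_mod_cast h1
    refine h2.trans ?_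
    have h3 : ∀ q ∈ (Finset.univ : Finset (Fin 4)) ×ˢ Finset.range n,
        (((CF n).filter (fun w => (1 + (x + 2 * Real.log (q.2 + 2) + Real.log 4)) *
            Real.exp (K * Real.log (q.2 + 2) ^ 2) <
              ((St q.2 (w.map (sy q.1))).card : ℝ))).card : ℝ) ≤
          Real.exp (-x) / 4 * (1 / ((q.2 : ℝ) + 2) ^ 2) * (CF n).card := by
      intro q _
      have e1 : ∀ (p : List P → Prop), (((CF n).filter (fun w => p (w.map (sy q.1)))).card : ℝ) =
          (((CF n).filter p).card : ℝ) := by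
        intro p
        rw [← Finset.sum_boole, ← Finset.sum_boole]
        exact sy_sumC q.1 n (fun w => if p w then (1 : ℝ) else 0)
      rw [e1 (fun w => (1 + (x + 2 * Real.log (q.2 + 2) + Real.log 4)) *
            Real.exp (K * Real.log (q.2 + 2) ^ 2) < ((St q.2 w).card : ℝ)), ← hexp]
      have h0 : (2 : ℝ) ≤ (q.2 : ℝ) + 2 := by linarith [Nat.cast_nonneg (α := ℝ) q.2]
      have h4 : 0 ≤ Real.log ((q.2 : ℝ) + 2) := Real.log_nonneg (by linarith)
      have h5 : 0 ≤ Real.log 4 := Real.log_nonneg (by norm_num)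
      exact (hside q.2).1 _ (by positivity)
    refine (Finset.sum_le_sum h3).trans ?_
    rw [Finset.sum_product]
    change ∑ _i : Fin 4, ∑ y ∈ Finset.range n,
      Real.exp (-x) / 4 * (1 / ((y : ℝ) + 2) ^ 2) * ((CF n).card : ℝ) ≤ _
    rw [Finset.sum_const, Finset.card_univ, Fintype.card_fin, nsmul_eq_mul,
      ← Finset.sum_mul, ← Finset.mul_sum]
    have h4 := sum_sq n
    have h5 : ∑ h ∈ Finset.range n, 1 / ((h : ℝ) + 2) ^ 2 ≤ 1 := by
      have : 0 ≤ 1 / ((n : ℝ) + 1) := by positivity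
      linarith
    push_cast
    calc 4 * (Real.exp (-x) / 4 * (∑ h ∈ Finset.range n, 1 / ((h : ℝ) + 2) ^ 2) * (CF n).card)
        ≤ 4 * (Real.exp (-x) / 4 * 1 * (CF n).card) := by gcongr
      _ = _ := by ring
  · rw [sy_sumC i n (fun w => ((St h w).card : ℝ))]
    refine ((hside h).2).trans ?_
    gcongr
    linarith


end Run7.h206.QP
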