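import Pool.Agent.Run7.h206.QP.All

/-! # Polygons: all arcs -/

set_option autoImplicit false

namespace Run7.h206.QP

open Run7.h206.SV Run7.h206.QB
open scoped Classical
open Pool.Agent.W840.CT (cn li ex SW ex_val)
open Pool.Agent.TH546.SAW (W pc mem_W card_W ex_pc)
open Pool.Agent.W870.Pg (loops_eq)
open Pool.Agent.H924P (IsLoop)
open H981 (mu mu_pos PP one_le_mu)

/-- the loop with the root moved to `s` -/
def rot {M : ℕ} (s : ZMod M) (f : ZMod M → P) : ZMod M → P := fun i => f (s + i) - f s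

theorem rot_loop {M : ℕ} {s : ZMod M} {f : ZMod M → P} (hf : IsLoop M f) : IsLoop M (rot s f) := by
  obtain ⟨h0, h1, h2⟩ := hf
  refine ⟨by simp [rot], ?_, fun i => ?_⟩
  · intro i j h
    have : f (s + i) = f (s + j) := by
      have h' : f (s + i) - f s = f (s + j) - f s := h
      exact sub_left_injective h'
    exact add_left_cancel (h1 this)
  · have := h2 (s + i)
    have e : s + (i + 1) = s + i + 1 := by ring
    simp only [rot, Prod.fst_sub, Prod.snd_sub, e]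
    rw [sub_sub_sub_cancel_right, sub_sub_sub_cancel_right]
    exact this

theorem rot_inj {M : ℕ} {s : ZMod M} {f f' : ZMod M → P} (hf : f 0 = 0) (hf' : f' 0 = 0)
    (h : rot s f = rot s f') : f = f' := by
  have h1 : ∀ i, f (s + i) - f s = f' (s + i) - f' s := fun i => congrFun h i
  have h2 := h1 (-s)
  rw [add_neg_cancel, hf, hf', zero_sub, zero_sub, neg_inj] at h2
  funext i
  have h3 := h1 (i - s)
  rw [add_sub_cancel, h2] at h3
  exact sub_left_injective h3

/-- a union bound over the roots -/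
theorem count_rot {N : ℕ} (hN : 1 ≤ N) (p : List P → Prop) :
    (((Pool.Agent.W870.Pg.LF (2 * N)).filter (fun f => ∃ s, p (lst N (rot s f)))).card : ℝ) ≤
      2 * N * (((CF (2 * N - 1)).filter p).card : ℝ) := by
  have : NeZero (2 * N) := ⟨by omega⟩
  have e : (((CF (2 * N - 1)).filter p).card : ℝ) =
      (((Pool.Agent.W870.Pg.LF (2 * N)).filter (fun f => p (lst N f))).card : ℝ) := by
    rw [← Finset.sum_boole, ← Finset.sum_boole]
    exact (sum_CF hN (fun w => if p w then (1 : ℝ) else 0)).symm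
  rw [e]
  have h1 : ((Pool.Agent.W870.Pg.LF (2 * N)).filter (fun f => ∃ s, p (lst N (rot s f)))) ⊆
      (Finset.univ : Finset (ZMod (2 * N))).biUnion
        (fun s => (Pool.Agent.W870.Pg.LF (2 * N)).filter (fun f => p (lst N (rot s f)))) := by
    intro f hf
    obtain ⟨hf, s, hs⟩ := Finset.mem_filter.1 hf
    rw [Finset.mem_biUnion]
    exact ⟨s, Finset.mem_univ _, Finset.mem_filter.2 ⟨hf, hs⟩⟩
  have h2 := (Finset.card_le_card h1).trans Finset.card_biUnion_le
  have h3 : ∀ s ∈ (Finset.univ : Finset (ZMod (2 * N))),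
      ((Pool.Agent.W870.Pg.LF (2 * N)).filter (fun f => p (lst N (rot s f)))).card ≤
        ((Pool.Agent.W870.Pg.LF (2 * N)).filter (fun f => p (lst N f))).card := by
    intro s _
    refine Finset.card_le_card_of_injOn (rot s) ?_ ?_
    · intro f hf
      rw [Finset.mem_coe, Finset.mem_filter, Pool.Agent.W870.Pg.mem_LF] at hf ⊢
      exact ⟨rot_loop hf.1, hf.2⟩
    · intro f hf f' hf' h
      rw [Finset.mem_coe, Finset.mem_filter, Pool.Agent.W870.Pg.mem_LF] at hf hf'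
      exact rot_inj hf.1.1 hf'.1.1 h
  have h4 := h2.trans (Finset.sum_le_sum h3)
  rw [Finset.sum_const, Finset.card_univ, ZMod.card, smul_eq_mul] at h4
  have h5 : ((_ : ℕ) : ℝ) ≤ ((_ : ℕ) : ℝ) := Nat.cast_le.2 h4
  push_cast at h5
  convert h5

/-- closed walks are not too few -/
theorem many_closed : ∃ K : ℝ, 0 ≤ K ∧ ∀ N : ℕ, 2 ≤ N →
    (cn (2 * N - 1) : ℝ) ≤ Real.exp (K * Real.log N ^ 2) * (CF (2 * N - 1)).card := by
  obtain ⟨K1, hK1, hlow⟩ := Pool.Agent.TH508.LT.sq_PP2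
  obtain ⟨K2, hK2, hup⟩ := Pool.Agent.TH508.LT.sq_upper2
  refine ⟨K1 + 4 * K2, by positivity, fun N hN => ?_⟩
  have hN2 : (2 : ℝ) ≤ N := by exact_mod_cast hN
  have hmu := mu_pos
  have hmu1 := one_le_mu
  have h1 := (hlow N hN).1
  have h2 := hup (2 * N - 1) (by omega)
  rw [← Pool.Agent.W840.CT.cn_eq] at h2
  rw [card_CF (by omega)]
  have hPP : 0 < PP N := lt_of_lt_of_le (by positivity) h1
  have hlog : Real.log ((2 * N - 1 : ℕ) : ℝ) ^ 2 ≤ 4 * Real.log N ^ 2 := by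
    have e1 : ((2 * N - 1 : ℕ) : ℝ) ≤ (N : ℝ) ^ 2 := by
      have : 2 * N - 1 ≤ N ^ 2 := by
        have : 2 * N ≤ N * N := Nat.mul_le_mul_right N hN
        rw [sq]
        omega
      exact_mod_cast this
    have e2 : (1 : ℝ) ≤ ((2 * N - 1 : ℕ) : ℝ) := by
      have : 1 ≤ 2 * N - 1 := by omega
      exact_mod_cast this
    have e3 : Real.log ((2 * N - 1 : ℕ) : ℝ) ≤ 2 * Real.log N := by
      calc _ ≤ Real.log ((N : ℝ) ^ 2) := Real.log_le_log (by linarith) e1
        _ = _ := by rw [Real.log_pow]; push_cast; ring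
    have e4 : 0 ≤ Real.log ((2 * N - 1 : ℕ) : ℝ) := Real.log_nonneg e2
    nlinarith
  calc (cn (2 * N - 1) : ℝ) ≤ mu ^ (2 * N - 1) *
        Real.exp (K2 * Real.log ((2 * N - 1 : ℕ) : ℝ) ^ 2) := h2
    _ ≤ mu ^ (2 * N) * Real.exp (4 * K2 * Real.log N ^ 2) := by
        refine mul_le_mul (pow_le_pow_right₀ hmu1 (by omega)) (Real.exp_le_exp.2 ?_)
          (Real.exp_pos _).le (by positivity)
        nlinarith
    _ = Real.exp ((K1 + 4 * K2) * Real.log N ^ 2) *
        (mu ^ (2 * N) * Real.exp (-(K1 * Real.log N ^ 2))) := by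
        rw [mul_left_comm, ← Real.exp_add]
        ring_nf
    _ ≤ Real.exp ((K1 + 4 * K2) * Real.log N ^ 2) * (4 * N * PP N) := by
        refine mul_le_mul_of_nonneg_left (h1.trans ?_) (Real.exp_pos _).le
        nlinarith

theorem take_li {n b : ℕ} (hb : b ≤ n) {v : Fin (n + 1) → ℤ × ℤ} (hv : v 0 = 0) :
    (li v).take (b + 1) = li (pc 0 (b - 0) v) := by
  unfold li
  rw [← List.map_take, List.take_range, show min (b + 1) (n + 1) = b + 1 by omega, Nat.sub_zero]
  refine List.map_congr_left fun k hk => ?_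
  rw [List.mem_range] at hk
  rw [ex_pc v (by omega), Nat.zero_add]
  have : ex v 0 = 0 := by
    have := ex_val v 0
    rw [hv] at this
    exact this
  rw [this, sub_zero]

/-- a beginning of the walk has too many sites near a side -/
def BadT (n : ℕ) (K Y : ℝ) (w : List P) : Prop :=
  ∃ b : ℕ, b ≤ n ∧ ∃ (i : Fin 4) (h : ℕ),
    Y * Real.exp (K * Real.log (h + 2) ^ 2) < ((St h ((w.take (b + 1)).map (sy i))).card : ℝ)

theorem walks_bad : ∃ K : ℝ, 0 < K ∧ ∀ n : ℕ, 2 ≤ n → ∀ x : ℝ, 0 ≤ x →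
    (((SF n).filter (BadT n K (Real.log n ^ 2 + x))).card : ℝ) ≤ Real.exp (-x) * cn n := by
  obtain ⟨K, hK, -, -, h3⟩ := final
  refine ⟨K, hK, fun n hn x hx => le_trans ?_ (h3 n hn x hx)⟩
  rw [← coe_W n (BadT n K (Real.log n ^ 2 + x))]
  have hsub : (W n).filter (fun v => BadT n K (Real.log n ^ 2 + x) (li v)) ⊆
      (W n).filter (fun v => ∃ a b : ℕ, a ≤ b ∧ b ≤ n ∧ ∃ (i : Fin 4) (h : ℕ),
        (Real.log n ^ 2 + x) * Real.exp (K * Real.log (h + 2) ^ 2) <
          ((St h ((li (pc a (b - a) v)).map (sy i))).card : ℝ)) := by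
    intro v hv
    obtain ⟨hv, b, hb, i, h, hbad⟩ := Finset.mem_filter.1 hv
    refine Finset.mem_filter.2 ⟨hv, 0, b, Nat.zero_le _, hb, i, h, ?_⟩
    rw [take_li hb (mem_W.1 hv).1] at hbad
    exact hbad
  exact_mod_cast Finset.card_le_card hsub

/-- **All arcs.** -/
theorem arcs : ∃ K : ℝ, 0 < K ∧ ∀ N : ℕ, 2 ≤ N → ∀ x : ℝ, 0 ≤ x →
    (((Pool.Agent.W870.Pg.LF (2 * N)).filter (fun f => ∃ s, BadT (2 * N - 1) K (Real.log N ^ 2 + x)
      (lst N (rot s f)))).card : ℝ) ≤ Real.exp (-x) * (Pool.Agent.W870.Pg.LF (2 * N)).card := by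
  obtain ⟨K, hK, hw⟩ := walks_bad
  obtain ⟨K1, hK1, hc⟩ := many_closed
  have hlC : 0 ≤ Real.log (8 + K1) := Real.log_nonneg (by linarith)
  refine ⟨K + 3 * Real.log (8 + K1), by positivity, fun N hN x hx => ?_⟩
  have hN2 : (2 : ℝ) ≤ N := by exact_mod_cast hN
  have hN0 : (0 : ℝ) < 2 * N := by linarith
  obtain ⟨L, hL⟩ : ∃ L, L = Real.log N := ⟨_, rfl⟩
  have hl2 := Real.log_two_gt_d9
  have hL2 : Real.log 2 ≤ L := by rw [hL]; exact Real.log_le_log (by norm_num) hN2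
  obtain ⟨y, hy⟩ : ∃ y, y = x + Real.log (2 * N) + K1 * L ^ 2 := ⟨_, rfl⟩
  have hlog2N : Real.log (2 * N) = Real.log 2 + L := by
    rw [hL, Real.log_mul (by norm_num) (by linarith)]
  have hy0 : 0 ≤ y := by
    rw [hy, hlog2N]
    have : 0 ≤ K1 * L ^ 2 := by positivity
    linarith
  have h1 := count_rot (N := N) (by omega)
    (BadT (2 * N - 1) (K + 3 * Real.log (8 + K1)) (Real.log N ^ 2 + x))
  refine h1.trans ?_
  have hlog : Real.log ((2 * N - 1 : ℕ) : ℝ) ^ 2 ≤ 4 * L ^ 2 := by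
    have e1 : ((2 * N - 1 : ℕ) : ℝ) ≤ (N : ℝ) ^ 2 := by
      have : 2 * N - 1 ≤ N ^ 2 := by
        have : 2 * N ≤ N * N := Nat.mul_le_mul_right N hN
        rw [sq]
        omega
      exact_mod_cast this
    have e2 : (1 : ℝ) ≤ ((2 * N - 1 : ℕ) : ℝ) := by
      have : 1 ≤ 2 * N - 1 := by omega
      exact_mod_cast this
    have e3 : Real.log ((2 * N - 1 : ℕ) : ℝ) ≤ 2 * L := by
      rw [hL]
      calc _ ≤ Real.log ((N : ℝ) ^ 2) := Real.log_le_log (by linarith) e1
        _ = _ := by rw [Real.log_pow]; push_cast; ring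
    have e4 : 0 ≤ Real.log ((2 * N - 1 : ℕ) : ℝ) := Real.log_nonneg e2
    nlinarith
  have h2 : (((CF (2 * N - 1)).filter
      (BadT (2 * N - 1) (K + 3 * Real.log (8 + K1)) (Real.log N ^ 2 + x))).card : ℝ) ≤
      Real.exp (-y) * cn (2 * N - 1) := by
    refine le_trans ?_ (hw (2 * N - 1) (by omega) y hy0)
    have hsub : (CF (2 * N - 1)).filter
        (BadT (2 * N - 1) (K + 3 * Real.log (8 + K1)) (Real.log N ^ 2 + x)) ⊆
        (SF (2 * N - 1)).filter
          (BadT (2 * N - 1) K (Real.log ((2 * N - 1 : ℕ) : ℝ) ^ 2 + y)) := by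
      intro w hw'
      obtain ⟨hw', b, hb, i, h, hbad⟩ := Finset.mem_filter.1 hw'
      refine Finset.mem_filter.2 ⟨(mem_CF.1 hw').1, b, hb, i, h, lt_of_le_of_lt ?_ hbad⟩
      have hH := log_two_sq h
      obtain ⟨H, hHe⟩ : ∃ H, H = Real.log ((h : ℝ) + 2) ^ 2 := ⟨_, rfl⟩
      rw [← hHe] at hH ⊢
      rw [← hL]
      have e1 : Real.log ((2 * N - 1 : ℕ) : ℝ) ^ 2 + y ≤ (8 + K1) * (L ^ 2 + x) := by
        have e2 : Real.log 2 + L ≤ 4 * L ^ 2 := by nlinarith
        have e3 : 0 ≤ K1 * x := by positivity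
        rw [hy, hlog2N]
        nlinarith
      have e4 : 8 + K1 ≤ Real.exp (3 * Real.log (8 + K1) * H) := by
        calc 8 + K1 = Real.exp (Real.log (8 + K1)) := (Real.exp_log (by linarith)).symm
          _ ≤ _ := by
            refine Real.exp_le_exp.2 ?_
            nlinarith
      calc (Real.log ((2 * N - 1 : ℕ) : ℝ) ^ 2 + y) * Real.exp (K * H)
          ≤ ((8 + K1) * (L ^ 2 + x)) * Real.exp (K * H) := by gcongr
        _ ≤ (Real.exp (3 * Real.log (8 + K1) * H) * (L ^ 2 + x)) * Real.exp (K * H) := by gcongr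
        _ = (L ^ 2 + x) * Real.exp ((K + 3 * Real.log (8 + K1)) * H) := by
            rw [show (K + 3 * Real.log (8 + K1)) * H = 3 * Real.log (8 + K1) * H + K * H by ring,
              Real.exp_add]
            ring
    exact_mod_cast Finset.card_le_card hsub
  have h3 := hc N hN
  rw [← hL] at h3
  have h4 : ((Pool.Agent.W870.Pg.LF (2 * N)).card : ℝ) = (CF (2 * N - 1)).card := by
    rw [card_CF (by omega), loops_eq (by omega)]
  rw [h4]
  have h5 : 2 * N * (Real.exp (-y) * Real.exp (K1 * L ^ 2)) = Real.exp (-x) := by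
    have e1 : (2 * N : ℝ) = Real.exp (Real.log (2 * N)) := (Real.exp_log hN0).symm
    rw [e1, ← Real.exp_add, ← Real.exp_add, hy]
    congr 1
    ring
  calc 2 * N * _ ≤ 2 * N * (Real.exp (-y) * (Real.exp (K1 * L ^ 2) * (CF (2 * N - 1)).card)) := by
        refine mul_le_mul_of_nonneg_left (h2.trans ?_) hN0.le
        exact mul_le_mul_of_nonneg_left h3 (Real.exp_pos _).le
    _ = (2 * N * (Real.exp (-y) * Real.exp (K1 * L ^ 2))) * (CF (2 * N - 1)).card := by ring
    _ = _ := by rw [h5]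

/-- the whole polygon -/
theorem whole : ∃ K : ℝ, 0 < K ∧ ∀ N : ℕ, 2 ≤ N →
    (∀ x : ℝ, 0 ≤ x → (((Pool.Agent.W870.Pg.LF (2 * N)).filter (fun f => Bad K x (lst N f))).card : ℝ) ≤
      Real.exp (-x) * (Pool.Agent.W870.Pg.LF (2 * N)).card) ∧
    ∀ (i : Fin 4) (h : ℕ), ∑ f ∈ Pool.Agent.W870.Pg.LF (2 * N), ((St h ((lst N f).map (sy i))).card : ℝ) ≤
      Real.exp (K * Real.log (h + 2) ^ 2) * (Pool.Agent.W870.Pg.LF (2 * N)).card := by
  obtain ⟨K, hK, hall⟩ := all_sidesC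
  refine ⟨K + 1, by positivity, fun N hN => ?_⟩
  have h4 : ((Pool.Agent.W870.Pg.LF (2 * N)).card : ℝ) = (CF (2 * N - 1)).card := by
    rw [card_CF (by omega), loops_eq (by omega)]
  rw [h4]
  obtain ⟨h1, h2⟩ := hall N hN (2 * N - 1) rfl
  constructor
  · intro x hx
    have e : (((Pool.Agent.W870.Pg.LF (2 * N)).filter (fun f => Bad (K + 1) x (lst N f))).card : ℝ) =
        (((CF (2 * N - 1)).filter (Bad (K + 1) x)).card : ℝ) := by
      rw [← Finset.sum_boole, ← Finset.sum_boole]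
      exact sum_CF (by omega) (fun w => if Bad (K + 1) x w then (1 : ℝ) else 0)
    rw [e]
    refine le_trans ?_ (h1 x hx)
    have hsub : (CF (2 * N - 1)).filter (Bad (K + 1) x) ⊆
        (CF (2 * N - 1)).filter (fun w => Bad K x w) := by
      intro w hw
      obtain ⟨hw, i, h, hb⟩ := Finset.mem_filter.1 hw
      refine Finset.mem_filter.2 ⟨hw, i, h, lt_of_le_of_lt ?_ hb⟩
      gcongr
      linarith
    exact_mod_cast Finset.card_le_card hsub
  · intro i h
    rw [sum_CF (by omega) (fun w => ((St h (w.map (sy i))).card : ℝ))]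
    refine (h2 i h).trans ?_
    gcongr
    linarith

/-- the number of the times `k ≤ b` at which the arc from `s` is near a side -/
noncomputable def nr {M : ℕ} (f : ZMod M → P) (s : ZMod M) (b h : ℕ) (g : P → ℤ) : ℕ :=
  Nat.card {k : Fin (b + 1) // ∀ l : Fin (b + 1),
    g (f (s + ((k : ℕ) : ZMod M))) ≤ g (f (s + ((l : ℕ) : ZMod M))) + h}

theorem sy_sub' (i : Fin 4) (p q : P) : sy i (p - q) = sy i p - sy i q := by
  fin_cases i
  · rfl
  · refine Prod.ext rfl ?_
    simp only [sy, Prod.snd_sub]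
    ring
  · rfl
  · refine Prod.ext ?_ ?_ <;> simp only [sy, Prod.fst_sub, Prod.snd_sub] <;> ring

theorem nr_eq {N b h : ℕ} (hN : 1 ≤ N) {f : ZMod (2 * N) → P} (hf : IsLoop (2 * N) f)
    (s : ZMod (2 * N)) (hb : b ≤ 2 * N - 1) {g : P → ℤ} {i : Fin 4} (hg : ∀ p, g p = (sy i p).2) :
    nr f s b h g = (St h (((lst N (rot s f)).take (b + 1)).map (sy i))).card := by
  have : NeZero (2 * N) := ⟨by omega⟩
  have hmem : ∀ p, p ∈ ((lst N (rot s f)).take (b + 1)).map (sy i) ↔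
      ∃ k : Fin (b + 1), p = sy i (f (s + ((k : ℕ) : ZMod (2 * N))) - f s) := by
    intro p
    unfold lst
    rw [← List.map_take, List.take_range, show min (b + 1) (2 * N) = b + 1 by omega, List.mem_map]
    constructor
    · rintro ⟨q, hq, rfl⟩
      rw [List.mem_map] at hq
      obtain ⟨k, hk, rfl⟩ := hq
      rw [List.mem_range] at hk
      exact ⟨⟨k, hk⟩, rfl⟩
    · rintro ⟨k, rfl⟩
      exact ⟨_, List.mem_map.2 ⟨k.1, List.mem_range.2 k.2, rfl⟩, rfl⟩
  have hSt : ∀ p, p ∈ St h (((lst N (rot s f)).take (b + 1)).map (sy i)) ↔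
      ∃ k : Fin (b + 1), (∀ l : Fin (b + 1),
        g (f (s + ((k : ℕ) : ZMod (2 * N)))) ≤ g (f (s + ((l : ℕ) : ZMod (2 * N)))) + h) ∧
        p = sy i (f (s + ((k : ℕ) : ZMod (2 * N))) - f s) := by
    intro p
    rw [mem_St, hmem]
    have hne : ((lst N (rot s f)).take (b + 1)).map (sy i) ≠ [] := by
      intro h0
      have h1 := (hmem _).2 ⟨0, rfl⟩
      rw [h0] at h1
      simp at h1
    constructor
    · rintro ⟨⟨k, rfl⟩, h3⟩
      refine ⟨k, fun l => ?_, rfl⟩
      have h4 := mh_le ((hmem _).2 ⟨l, rfl⟩)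
      rw [sy_sub', Prod.snd_sub, ← hg, ← hg] at h3 h4
      linarith
    · rintro ⟨k, h3, rfl⟩
      refine ⟨⟨k, rfl⟩, ?_⟩
      obtain ⟨q, hq, h4⟩ := mh_mem hne
      obtain ⟨l, rfl⟩ := (hmem q).1 hq
      rw [← h4]
      have h5 := h3 l
      rw [sy_sub', Prod.snd_sub, sy_sub', Prod.snd_sub, ← hg, ← hg, ← hg]
      linarith
  unfold nr
  rw [Nat.card_eq_fintype_card, Fintype.card_subtype]
  refine Finset.card_bij (fun k _ => sy i (f (s + ((k : ℕ) : ZMod (2 * N))) - f s)) ?_ ?_ ?_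
  · intro k hk
    simp only [Finset.mem_filter, Finset.mem_univ, true_and] at hk
    rw [hSt]
    exact ⟨k, hk, rfl⟩
  · intro k _ k' _ h1
    have h2 := (sy_ok i).inj h1
    have h3 := add_left_cancel (hf.2.1 (sub_left_injective h2))
    have h4 := congrArg ZMod.val h3
    rw [ZMod.val_natCast, ZMod.val_natCast, Nat.mod_eq_of_lt (by omega),
      Nat.mod_eq_of_lt (by omega)] at h4
    exact Fin.ext h4
  · intro p hp
    obtain ⟨k, h3, rfl⟩ := (hSt p).1 hp
    refine ⟨k, ?_, rfl⟩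
    simp only [Finset.mem_filter, Finset.mem_univ, true_and]
    exact h3

theorem nr_whole {N h : ℕ} (hN : 1 ≤ N) {f : ZMod (2 * N) → P} (hf : IsLoop (2 * N) f)
    {g : P → ℤ} {i : Fin 4} (hg : ∀ p, g p = (sy i p).2) :
    nr f 0 (2 * N - 1) h g = (St h ((lst N f).map (sy i))).card := by
  rw [nr_eq hN hf 0 le_rfl hg]
  have e1 : rot (0 : ZMod (2 * N)) f = f := by
    funext j
    simp [rot, hf.1]
  have e2 : (lst N f).take (2 * N - 1 + 1) = lst N f := by
    rw [List.take_of_length_le]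
    rw [lst_length]
    omega
  rw [e1, e2]

end Run7.h206.QP
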