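import Pool.Agent.Run7.h206.QP.Cls
import Pool.Agent.Run7.h206.ARC.Glue
import Pool.Agent.W387.Q.Hyp
import Pool.Agent.TH508.LT.Gap2

/-! # The growth of the number of polygons -/

set_option autoImplicit false

namespace Run7.h206.QP

open Run7.h206.SV Run7.h206.QB
open scoped Classical
open Pool.Agent.W840.CT (cn)
open Pool.Agent.W870.Pg (LF mem_LF loops_eq)
open Pool.Agent.H924P (IsLoop)
open H981 (mu mu_pos PP one_le_mu)

theorem cl_of {N : ℕ} (hN : 1 ≤ N) {g : List P} (hg : g ∈ CF (2 * N - 1)) :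
    Run7.h206.ARC.Cl (2 * N) g := by
  rw [mem_CF, mem_SF] at hg
  obtain ⟨⟨h1, h2, h3, h4⟩, h5⟩ := hg
  exact ⟨by rw [h1]; omega, h2, h3, h4, h5⟩

theorem isLoop_of {N : ℕ} (hN : 1 ≤ N) {g : List P} (hg : g ∈ CF (2 * N - 1)) :
    IsLoop (2 * N) (Run7.h206.ARC.loop (2 * N) g) := by
  have : NeZero (2 * N) := ⟨by omega⟩
  have h := cl_of hN hg
  refine ⟨Run7.h206.ARC.loop_zero h, Run7.h206.ARC.loop_inj h, fun i => ?_⟩
  exact (Run7.h206.ARC.loop_adj h i).symm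

/-- the list of a loop -/
def lst (N : ℕ) (f : ZMod (2 * N) → P) : List P :=
  (List.range (2 * N)).map (fun i => f ((i : ℕ) : ZMod (2 * N)))

theorem lst_length (N : ℕ) (f : ZMod (2 * N) → P) : (lst N f).length = 2 * N := by
  simp [lst]

theorem lst_get {N : ℕ} (f : ZMod (2 * N) → P) {i : ℕ} (hi : i < (lst N f).length) :
    (lst N f)[i] = f ((i : ℕ) : ZMod (2 * N)) := by
  simp [lst]

theorem lst_mem {N : ℕ} (hN : 1 ≤ N) {f : ZMod (2 * N) → P} (hf : IsLoop (2 * N) f) :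
    lst N f ∈ CF (2 * N - 1) := by
  have : NeZero (2 * N) := ⟨by omega⟩
  obtain ⟨h0, hinj, hstep⟩ := hf
  rw [mem_CF, mem_SF]
  refine ⟨⟨by rw [lst_length]; omega, ?_, ?_, ?_⟩, ?_⟩
  · rw [List.head?_eq_getElem?, List.getElem?_eq_getElem (by rw [lst_length]; omega), lst_get]
    simp only [Nat.cast_zero, h0]
  · rw [List.isChain_iff_getElem]
    intro i hi
    rw [lst_get, lst_get]
    have h1 := hstep ((i : ℕ) : ZMod (2 * N))
    unfold Adj
    rw [abs_sub_comm (f ((i : ℕ) : ZMod (2 * N))).1, abs_sub_comm (f ((i : ℕ) : ZMod (2 * N))).2]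
    push_cast
    exact h1
  · unfold lst
    refine List.Nodup.map_on ?_ List.nodup_range
    intro x hx y hy hxy
    rw [List.mem_range] at hx hy
    have h1 := congrArg ZMod.val (hinj hxy)
    rwa [ZMod.val_natCast, ZMod.val_natCast, Nat.mod_eq_of_lt hx, Nat.mod_eq_of_lt hy] at h1
  · intro b hb
    rw [List.getLast?_eq_getElem?, List.getElem?_eq_getElem (by rw [lst_length]; omega),
      Option.some.injEq, lst_get] at hb
    subst hb
    have h1 := hstep (((lst N f).length - 1 : ℕ) : ZMod (2 * N))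
    have h2 : (((lst N f).length - 1 : ℕ) : ZMod (2 * N)) + 1 = 0 := by
      rw [lst_length]
      have h3 : ((2 * N - 1 + 1 : ℕ) : ZMod (2 * N)) = 0 := by
        rw [show 2 * N - 1 + 1 = 2 * N by omega]
        exact ZMod.natCast_self _
      rw [← h3]
      push_cast
      rfl
    rw [h2, h0] at h1
    unfold Adj
    rw [abs_sub_comm (f _).1, abs_sub_comm (f _).2]
    exact h1

theorem loop_lst {N : ℕ} (hN : 1 ≤ N) (f : ZMod (2 * N) → P) :
    Run7.h206.ARC.loop (2 * N) (lst N f) = f := by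
  have : NeZero (2 * N) := ⟨by omega⟩
  funext i
  have hi := ZMod.val_lt i
  unfold Run7.h206.ARC.loop
  rw [List.getD_eq_getElem _ _ (by rw [lst_length]; omega), lst_get, ZMod.natCast_zmod_val]

theorem lst_loop {N : ℕ} (hN : 1 ≤ N) {g : List P} (hg : g ∈ CF (2 * N - 1)) :
    lst N (Run7.h206.ARC.loop (2 * N) g) = g := by
  have : NeZero (2 * N) := ⟨by omega⟩
  have hl := (cl_of hN hg).len
  refine List.ext_getElem (by rw [lst_length, hl]) (fun i hi hi' => ?_)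
  rw [lst_get]
  unfold Run7.h206.ARC.loop
  rw [lst_length] at hi
  rw [ZMod.val_natCast, Nat.mod_eq_of_lt hi, List.getD_eq_getElem _ _ hi']

/-- sums over loops are sums over lists -/
theorem sum_CF {N : ℕ} (hN : 1 ≤ N) (F : List P → ℝ) :
    ∑ f ∈ LF (2 * N), F (lst N f) = ∑ g ∈ CF (2 * N - 1), F g := by
  have : NeZero (2 * N) := ⟨by omega⟩
  refine Finset.sum_bij' (fun f _ => lst N f) (fun g _ => Run7.h206.ARC.loop (2 * N) g)
    (fun f hf => lst_mem hN (mem_LF.1 hf)) (fun g hg => mem_LF.2 (isLoop_of hN hg))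
    (fun f _ => loop_lst hN f) (fun g hg => lst_loop hN hg) (fun f _ => rfl)

theorem card_CF {N : ℕ} (hN : 1 ≤ N) : ((CF (2 * N - 1)).card : ℝ) = 4 * N * PP N := by
  rw [← loops_eq hN]
  have := sum_CF hN (fun _ => (1 : ℝ))
  rw [Finset.sum_const, Finset.sum_const, nsmul_eq_mul, nsmul_eq_mul, mul_one, mul_one] at this
  exact this.symm

/-- one step -/
theorem gr1 : ∃ K : ℝ, 0 ≤ K ∧ ∀ N : ℕ, 2 ≤ N →
    ((CF (2 * (N + 1) - 1)).card : ℝ) ≤
      mu ^ 2 * Real.exp (K * (Real.log N / Real.sqrt N)) * (CF (2 * N - 1)).card := by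
  obtain ⟨K, hK⟩ := Pool.Agent.W387.Q.f1
  have hmu := mu_pos
  have hmu1 := one_le_mu
  refine ⟨2 + |K|, by positivity, fun N hN => ?_⟩
  have hN2 : (2 : ℝ) ≤ N := by exact_mod_cast hN
  have hN0 : (0 : ℝ) < N := by linarith
  have hs : 0 < Real.sqrt N := Real.sqrt_pos.2 hN0
  have h1 := hK N hN
  rw [Pool.Agent.TH508.LT.rN_eq hN] at h1
  have hP : 0 < PP N := Pool.Agent.H739K.PP_pos hN
  obtain ⟨ρ, hρ⟩ : ∃ ρ, ρ = Real.log N / Real.sqrt N := ⟨_, rfl⟩
  have hl2 := Real.log_two_gt_d9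
  have hlog : Real.log 2 ≤ Real.log N := Real.log_le_log (by norm_num) hN2
  have hρ0 : 0 < ρ := by rw [hρ]; exact div_pos (by linarith) hs
  rw [← hρ] at h1 ⊢
  have h2 : PP (N + 1) / PP N ≤ mu ^ 2 + |K| * ρ := by
    have h3 := (abs_le.1 h1).2
    have h4 : K * ρ ≤ |K| * ρ := mul_le_mul_of_nonneg_right (le_abs_self K) hρ0.le
    linarith
  rw [div_le_iff₀ hP] at h2
  have h5 : 1 / (N : ℝ) ≤ 2 * ρ := by
    rw [hρ, mul_div_assoc', div_le_div_iff₀ hN0 hs]
    have h6 : Real.sqrt N ≤ N := by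
      rw [Real.sqrt_le_left hN0.le]
      nlinarith
    nlinarith
  rw [card_CF (by omega), card_CF (by omega)]
  have hmu2 : 1 ≤ mu ^ 2 := one_le_pow₀ hmu1
  have h7 : (4 * ((N + 1 : ℕ) : ℝ)) = 4 * N * (1 + 1 / N) := by
    push_cast
    field_simp
  calc 4 * ((N + 1 : ℕ) : ℝ) * PP (N + 1) ≤ 4 * N * (1 + 1 / N) * ((mu ^ 2 + |K| * ρ) * PP N) := by
        rw [h7]
        gcongr
    _ ≤ 4 * N * (1 + 2 * ρ) * ((mu ^ 2 * (1 + |K| * ρ)) * PP N) := by
        have h8 : mu ^ 2 + |K| * ρ ≤ mu ^ 2 * (1 + |K| * ρ) := by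
          have : 0 ≤ |K| * ρ := by positivity
          nlinarith
        gcongr
    _ ≤ 4 * N * Real.exp (2 * ρ) * ((mu ^ 2 * Real.exp (|K| * ρ)) * PP N) := by
        have h9 := Real.add_one_le_exp (2 * ρ)
        have h10 := Real.add_one_le_exp (|K| * ρ)
        gcongr <;> linarith
    _ = mu ^ 2 * Real.exp ((2 + |K|) * ρ) * (4 * N * PP N) := by
        rw [add_mul, Real.exp_add]
        ring

/-- the growth of the number of polygons, if `ℓ` is small compared to `√N` -/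
theorem growC : ∃ A : ℝ, 0 ≤ A ∧ ∀ N ℓ : ℕ, 2 ≤ N → 1 ≤ ℓ →
    A * ℓ * (Real.log N / Real.sqrt N) ≤ 1 → ∀ r : ℕ,
    ((CF (2 * N - 1 + 2 * ℓ * r)).card : ℝ) ≤ (3 * (cn (2 * ℓ) : ℝ)) ^ r * (CF (2 * N - 1)).card := by
  obtain ⟨K, hK, hstep⟩ := gr1
  have hmu := mu_pos
  refine ⟨K + 5, by positivity, fun N ℓ hN hl hA r => ?_⟩
  have hl0 : (1 : ℝ) ≤ ℓ := by exact_mod_cast hl
  have hN2 : (2 : ℝ) ≤ N := by exact_mod_cast hN
  have hN0 : (0 : ℝ) < N := by linarith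
  have hs : 0 < Real.sqrt N := Real.sqrt_pos.2 hN0
  have hl2 := Real.log_two_gt_d9
  have hlog : Real.log 2 ≤ Real.log N := Real.log_le_log (by norm_num) hN2
  have hρ0 : 0 < Real.log N / Real.sqrt N := div_pos (by linarith) hs
  -- `N` is not small
  have hN8 : 8 ≤ N := by
    by_contra hcon
    have h1 : (N : ℝ) ≤ 9 := by
      have : N ≤ 9 := by omega
      exact_mod_cast this
    have h2 : Real.sqrt N ≤ 3 := by
      rw [Real.sqrt_le_left (by norm_num)]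
      linarith
    have h3 : (0.23 : ℝ) ≤ Real.log N / Real.sqrt N := by
      rw [le_div_iff₀ hs]
      nlinarith
    have h4 : 5 * 1 * 0.23 ≤ (K + 5) * ℓ * (Real.log N / Real.sqrt N) := by
      gcongr
      linarith
    norm_num at h4
    linarith
  obtain ⟨ρ, hρ⟩ : ∃ ρ, ρ = Real.log N / Real.sqrt N := ⟨_, rfl⟩
  rw [← hρ] at hA hρ0
  have hanti : ∀ m : ℕ, N ≤ m → Real.log m / Real.sqrt m ≤ ρ := by
    intro m hm
    have he : Real.exp 2 ≤ 8 := by
      have h1 := Real.exp_one_lt_d9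
      have h2 : Real.exp 2 = Real.exp 1 * Real.exp 1 := by
        rw [← Real.exp_add]
        norm_num
      have h3 := Real.exp_pos 1
      rw [h2]
      nlinarith
    have h1 : (8 : ℝ) ≤ N := by exact_mod_cast hN8
    have h2 : (N : ℝ) ≤ m := by exact_mod_cast hm
    rw [hρ]
    exact Real.log_div_sqrt_antitoneOn (show Real.exp 2 ≤ (N : ℝ) by linarith)
      (show Real.exp 2 ≤ (m : ℝ) by linarith) h2
  have hmany : ∀ k : ℕ, ((CF (2 * (N + k) - 1)).card : ℝ) ≤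
      (mu ^ 2 * Real.exp (K * ρ)) ^ k * (CF (2 * N - 1)).card := by
    intro k
    induction k with
    | zero => simp
    | succ k ih =>
      have h1 := hstep (N + k) (by omega)
      have h2 : Real.exp (K * (Real.log ((N + k : ℕ) : ℝ) / Real.sqrt ((N + k : ℕ) : ℝ))) ≤
          Real.exp (K * ρ) := by
        refine Real.exp_le_exp.2 (mul_le_mul_of_nonneg_left (hanti _ (by omega)) hK)
      calc ((CF (2 * (N + (k + 1)) - 1)).card : ℝ) ≤ _ := h1
        _ ≤ mu ^ 2 * Real.exp (K * ρ) * (CF (2 * (N + k) - 1)).card := by gcongr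
        _ ≤ mu ^ 2 * Real.exp (K * ρ) * ((mu ^ 2 * Real.exp (K * ρ)) ^ k *
            (CF (2 * N - 1)).card) := by gcongr
        _ = _ := by rw [pow_succ]; ring
  have h1 := hmany (ℓ * r)
  have e : 2 * (N + ℓ * r) - 1 = 2 * N - 1 + 2 * ℓ * r := by
    have : 2 * (N + ℓ * r) = 2 * N + 2 * ℓ * r := by ring
    omega
  rw [e] at h1
  refine h1.trans (mul_le_mul_of_nonneg_right ?_ (Nat.cast_nonneg _))
  rw [pow_mul]
  refine pow_le_pow_left₀ (by positivity) ?_ r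
  rw [mul_pow, ← pow_mul, ← Real.exp_nat_mul]
  have h2 : (ℓ : ℝ) * (K * ρ) ≤ 1 := by
    have : 0 ≤ 5 * (ℓ : ℝ) * ρ := by positivity
    nlinarith
  have h3 : Real.exp ((ℓ : ℝ) * (K * ρ)) ≤ 3 := by
    have := Real.exp_one_lt_d9
    exact (Real.exp_le_exp.2 h2).trans (by linarith)
  have h4 : mu ^ (2 * ℓ) ≤ (cn (2 * ℓ) : ℝ) := by
    rw [Pool.Agent.W840.CT.cn_eq]
    exact H981.mu_pow_le _
  calc mu ^ (2 * ℓ) * Real.exp ((ℓ : ℝ) * (K * ρ)) ≤ (cn (2 * ℓ) : ℝ) * 3 := by gcongr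
    _ = _ := by ring

end Run7.h206.QP
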