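import Pool.Agent.Run7.h206.QP.Grow

/-! # Polygons: the number of sites near the lowest line -/

set_option autoImplicit false

namespace Run7.h206.QP

open Run7.h206.SV Run7.h206.QB
open scoped Classical
open Pool.Agent.W840.CT (cn)
open Pool.Agent.TH546.SAW (PL card_PL)

/-- the reflected walks -/
theorem sum_miC (n : ℕ) (F : List P → ℝ) : ∑ w ∈ CF n, F (w.map mi) = ∑ w ∈ CF n, F w := by
  have hmem : ∀ w ∈ CF n, w.map mi ∈ CF n := by
    intro w hw
    rw [mem_CF, mem_SF] at hw ⊢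
    obtain ⟨⟨h1, h2, h3, h4⟩, h5⟩ := hw
    refine ⟨⟨by simpa using h1, ?_, ?_, ?_⟩, ?_⟩
    · rw [List.head?_map, h2]
      simp [mi]
    · rw [List.isChain_map]
      refine h3.imp (fun p q h => ?_)
      unfold Adj at h ⊢
      simp only [mi]
      rw [← h, abs_sub_comm]
      congr 2
      ring
    · refine h4.map ?_
      intro p q h
      have := congrArg mi h
      rwa [mi_mi, mi_mi] at this
    · intro b hb
      rw [List.getLast?_map, Option.map_eq_some_iff] at hb
      obtain ⟨a, ha, rfl⟩ := hb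
      have := h5 a ha
      unfold Adj at this ⊢
      simp only [mi, Prod.fst_zero, Prod.snd_zero, sub_zero, abs_neg] at this ⊢
      exact this
  have hinv : ∀ w : List P, (w.map mi).map mi = w := by
    intro w
    rw [List.map_map]
    have : mi ∘ mi = id := by
      funext p
      exact mi_mi p
    rw [this, List.map_id]
  exact Finset.sum_nbij' (fun w => w.map mi) (fun w => w.map mi) hmem hmem
    (fun w _ => hinv w) (fun w _ => hinv w) (fun w _ => rfl)

theorem exp_TTC {ℓ D o h : ℕ} (hl : 1 ≤ ℓ) (hD : h ≤ D) {q lam M : ℝ} (hM : 0 < M)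
    (hq : q = (QS ℓ D o).card / (2 * M)) (hlam : lam = Real.log (1 + q)) (n : ℕ)
    (hgrow : ∀ r : ℕ, ((CF (n + 2 * ℓ * r)).card : ℝ) ≤ M ^ r * (CF n).card) :
    ∑ w ∈ CF n, Real.exp (lam * TT ℓ h w / (8 * (h + 1))) ≤ 2 * ((CF n).card : ℝ) := by
  have hq0 : 0 ≤ q := by rw [hq]; positivity
  have he : ∀ k : ℕ, Real.exp (lam * k) = (1 + q) ^ k := by
    intro k
    rw [mul_comm, Real.exp_nat_mul, hlam, Real.exp_log (by linarith)]
  have h1 : ∀ i ∈ IX h, ∑ w ∈ CF n, (1 + q) ^ (G ℓ i.1 i.2 w).card ≤ 2 * ((CF n).card : ℝ) := by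
    intro i hi
    unfold IX at hi
    rw [Finset.mem_product, Finset.mem_range] at hi
    rw [hq]
    exact exp_GC (D := D) (o := o) hl (by omega) i.2 hM n hgrow
  have h1' : ∀ i ∈ IX h, ∑ w ∈ CF n, (1 + q) ^ (G ℓ i.1 i.2 (w.map mi)).card ≤
      2 * ((CF n).card : ℝ) := by
    intro i hi
    rw [sum_miC n (fun w => (1 + q) ^ (G ℓ i.1 i.2 w).card)]
    exact h1 i hi
  have hN : (0 : ℝ) < 8 * (h + 1) := by positivity
  have key : ∀ w : List P, Real.exp (lam * TT ℓ h w / (8 * (h + 1))) ≤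
      (1 / (8 * ((h : ℝ) + 1))) * ∑ i ∈ IX h, ((1 + q) ^ (G ℓ i.1 i.2 w).card +
        (1 + q) ^ (G ℓ i.1 i.2 (w.map mi)).card) := by
    intro w
    have hc := convexOn_exp.map_sum_le (t := IX h ×ˢ (Finset.univ : Finset Bool))
      (w := fun _ => 1 / (8 * ((h : ℝ) + 1)))
      (p := fun i => lam * (if i.2 then ((G ℓ i.1.1 i.1.2 w).card : ℝ) else
        ((G ℓ i.1.1 i.1.2 (w.map mi)).card : ℝ))) (fun _ _ => by positivity)
      (by
        rw [Finset.sum_const, Finset.card_product, card_IX, nsmul_eq_mul]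
        simp only [Finset.card_univ, Fintype.card_bool]
        push_cast
        field_simp
        norm_num) (fun _ _ => Set.mem_univ _)
    rw [Finset.sum_product, Finset.sum_product] at hc
    simp only [Fintype.sum_bool, smul_eq_mul, if_true, Bool.false_eq_true, if_false, he] at hc
    refine le_trans (le_of_eq ?_) (hc.trans (le_of_eq ?_))
    · congr 1
      unfold TT
      push_cast
      rw [Finset.mul_sum, Finset.sum_div]
      refine Finset.sum_congr rfl (fun i _ => ?_)
      ring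
    · rw [Finset.mul_sum]
      refine Finset.sum_congr rfl (fun i _ => ?_)
      ring
  refine (Finset.sum_le_sum (fun w _ => key w)).trans ?_
  rw [← Finset.mul_sum, Finset.sum_comm]
  have h2 : ∀ i ∈ IX h, ∑ w ∈ CF n, ((1 + q) ^ (G ℓ i.1 i.2 w).card +
      (1 + q) ^ (G ℓ i.1 i.2 (w.map mi)).card) ≤ 4 * ((CF n).card : ℝ) := by
    intro i hi
    rw [Finset.sum_add_distrib]
    linarith [h1 i hi, h1' i hi]
  refine (mul_le_mul_of_nonneg_left (Finset.sum_le_sum h2) (by positivity)).trans (le_of_eq ?_)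
  rw [Finset.sum_const, card_IX, nsmul_eq_mul]
  push_cast
  field_simp
  ring

/-- the tail and the mean for one side -/
theorem sideA {n h ℓ D o : ℕ} {K R M : ℝ} (hl : 1 ≤ ℓ) (hD : h ≤ D) (hR : 1 ≤ R) (hM : 0 < M)
    (hRQ : 2 * M ≤ R * (QS ℓ D o).card)
    (hfin : 12 * ((2 * h + 1) * (2 * ℓ + 1) * (h + 1)) * (8 * (h + 1)) * R ≤
        Real.exp (K * Real.log (h + 2) ^ 2))
    (hgrow : ∀ r : ℕ, ((CF (n + 2 * ℓ * r)).card : ℝ) ≤ M ^ r * (CF n).card) :
    (∀ x : ℝ, 0 ≤ x → (((CF n).filter (fun w =>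
      (1 + x) * Real.exp (K * Real.log (h + 2) ^ 2) < ((St h w).card : ℝ))).card : ℝ) ≤
        Real.exp (-x) * (CF n).card) ∧
    ∑ w ∈ CF n, ((St h w).card : ℝ) ≤ Real.exp (K * Real.log (h + 2) ^ 2) * (CF n).card := by
  set q : ℝ := (QS ℓ D o).card / (2 * M) with hq
  set lam : ℝ := Real.log (1 + q) with hlam
  set B : ℝ := (2 * (h : ℝ) + 1) * (2 * ℓ + 1) * (h + 1) with hB
  have hB1 : 1 ≤ B := by
    rw [hB]
    have a1 : (1 : ℝ) ≤ 2 * (h : ℝ) + 1 := by linarith [Nat.cast_nonneg (α := ℝ) h]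
    have a2 : (1 : ℝ) ≤ 2 * (ℓ : ℝ) + 1 := by linarith [Nat.cast_nonneg (α := ℝ) ℓ]
    have a3 : (1 : ℝ) ≤ (h : ℝ) + 1 := by linarith [Nat.cast_nonneg (α := ℝ) h]
    exact one_le_mul_of_one_le_of_one_le (one_le_mul_of_one_le_of_one_le a1 a2) a3
  have hQ : (0 : ℝ) < (QS ℓ D o).card := by
    by_contra hcon
    have : ((QS ℓ D o).card : ℝ) = 0 := le_antisymm (not_lt.1 hcon) (Nat.cast_nonneg _)
    rw [this, mul_zero] at hRQ
    linarith
  have hq0 : 0 < q := by rw [hq]; positivity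
  have hq1 : 1 ≤ R * q := by
    rw [hq, ← mul_div_assoc, le_div_iff₀ (by positivity), one_mul]
    exact hRQ
  have hlam0 : 0 < lam := Real.log_pos (by linarith)
  -- `1 / lam ≤ 2 R`
  have hlamR : 1 ≤ lam * (2 * R) := by
    have h1 : q / (1 + q) ≤ lam := by
      have := Real.one_sub_inv_le_log_of_pos (by linarith : (0 : ℝ) < 1 + q)
      rw [hlam]
      refine le_trans (le_of_eq ?_) this
      field_simp
      ring
    have h2 : 1 / (2 * R) ≤ q / (1 + q) := by
      rw [div_le_div_iff₀ (by positivity) (by positivity)]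
      nlinarith
    have h3 := h2.trans h1
    rwa [div_le_iff₀ (by positivity)] at h3
  have hexp := exp_TTC (h := h) hl hD hM hq hlam n hgrow
  set N : ℝ := 8 * ((h : ℝ) + 1) with hN
  have hN8 : 8 ≤ N := by rw [hN]; linarith [Nat.cast_nonneg (α := ℝ) h]
  have hSt : ∀ w ∈ CF n, ((St h w).card : ℝ) ≤ (2 + 2 * TT ℓ h w) * B :=
    fun w hw => card_St_le (mem_CF.1 hw).1
  constructor
  · intro x hx
    have h1 : (((CF n).filter (fun w =>
        (1 + x) * Real.exp (K * Real.log (h + 2) ^ 2) < ((St h w).card : ℝ))).card : ℝ) *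
        Real.exp (x + 1) ≤ 2 * (CF n).card := by
      refine le_trans ?_ hexp
      rw [← nsmul_eq_mul, ← Finset.sum_const]
      refine (Finset.sum_le_sum (fun w hw => ?_)).trans
        (Finset.sum_le_sum_of_subset_of_nonneg (Finset.filter_subset _ _)
          (fun w _ _ => (Real.exp_pos _).le))
      obtain ⟨hw, hbad⟩ := Finset.mem_filter.1 hw
      apply Real.exp_le_exp.2
      by_contra hcon
      rw [not_le, div_lt_iff₀ (by linarith)] at hcon
      -- then the number of sites is small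
      have h2 : (TT ℓ h w : ℝ) ≤ 2 * R * ((x + 1) * N) := by
        have hT0 : (0 : ℝ) ≤ TT ℓ h w := Nat.cast_nonneg _
        calc (TT ℓ h w : ℝ) = 1 * TT ℓ h w := (one_mul _).symm
          _ ≤ (lam * (2 * R)) * TT ℓ h w := by gcongr
          _ = 2 * R * (lam * TT ℓ h w) := by ring
          _ ≤ 2 * R * ((x + 1) * N) := by gcongr
      have h3 := hSt w hw
      have h4 : (2 + 2 * (TT ℓ h w : ℝ)) * B ≤ (1 + x) * (6 * B * N * R) := by
        have h5 : 2 + 2 * (TT ℓ h w : ℝ) ≤ (1 + x) * (6 * N * R) := by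
          have h6 : 1 ≤ N * R := by nlinarith
          nlinarith
        calc (2 + 2 * (TT ℓ h w : ℝ)) * B ≤ ((1 + x) * (6 * N * R)) * B := by gcongr
          _ = _ := by ring
      have h5 : (1 + x) * (6 * B * N * R) ≤ (1 + x) * Real.exp (K * Real.log (h + 2) ^ 2) := by
        have h6 : 6 * B * N * R ≤ Real.exp (K * Real.log (h + 2) ^ 2) := by
          refine le_trans ?_ hfin
          have : 0 ≤ B * N * R := by positivity
          nlinarith
        gcongr
      linarith
    have h2 : Real.exp (x + 1) * Real.exp (-x) = Real.exp 1 := by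
      rw [← Real.exp_add]
      congr 1
      ring
    have h3 := Real.exp_one_gt_d9
    have h4 := Real.exp_pos (-x)
    have h5 : (0 : ℝ) ≤ (CF n).card := Nat.cast_nonneg _
    set X := (((CF n).filter (fun w =>
        (1 + x) * Real.exp (K * Real.log (h + 2) ^ 2) < ((St h w).card : ℝ))).card : ℝ) with hX
    have h6 : X * Real.exp 1 ≤ 2 * (CF n).card * Real.exp (-x) := by
      calc X * Real.exp 1 = X * Real.exp (x + 1) * Real.exp (-x) := by rw [← h2]; ring
        _ ≤ 2 * (CF n).card * Real.exp (-x) := by gcongr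
    have hX0 : 0 ≤ X := Nat.cast_nonneg _
    nlinarith
  · have h1 : ∑ w ∈ CF n, (TT ℓ h w : ℝ) ≤ 2 * R * N * ((2 : ℝ) * (CF n).card) := by
      calc ∑ w ∈ CF n, (TT ℓ h w : ℝ)
          ≤ ∑ w ∈ CF n, 2 * R * N * Real.exp (lam * TT ℓ h w / N) := by
            refine Finset.sum_le_sum (fun w _ => ?_)
            have hT0 : (0 : ℝ) ≤ TT ℓ h w := Nat.cast_nonneg _
            have h2 := Real.add_one_le_exp (lam * TT ℓ h w / N)
            calc (TT ℓ h w : ℝ) = 1 * TT ℓ h w := (one_mul _).symm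
              _ ≤ (lam * (2 * R)) * TT ℓ h w := by gcongr
              _ = 2 * R * N * (lam * TT ℓ h w / N) := by field_simp
              _ ≤ 2 * R * N * Real.exp (lam * TT ℓ h w / N) := by
                  gcongr
                  linarith
        _ = 2 * R * N * ∑ w ∈ CF n, Real.exp (lam * TT ℓ h w / N) := by rw [Finset.mul_sum]
        _ ≤ _ := by gcongr
    have h2 : (0 : ℝ) ≤ (CF n).card := Nat.cast_nonneg _
    have h3 : (2 + 8 * R * N) * B ≤ Real.exp (K * Real.log (h + 2) ^ 2) := by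
      refine le_trans ?_ hfin
      have h4 : 1 ≤ R * N := by nlinarith
      have h5 : 0 ≤ B := by linarith
      have h6 : (2 + 8 * R * N) * B ≤ (10 * R * N) * B := by
        gcongr
        nlinarith
      have h7 : 0 ≤ R * N * B := by positivity
      nlinarith
    calc ∑ w ∈ CF n, ((St h w).card : ℝ) ≤ ∑ w ∈ CF n, (2 + 2 * (TT ℓ h w : ℝ)) * B :=
          Finset.sum_le_sum hSt
      _ = (2 * (CF n).card + 2 * ∑ w ∈ CF n, (TT ℓ h w : ℝ)) * B := by
          rw [← Finset.sum_mul, Finset.sum_add_distrib, Finset.sum_const, nsmul_eq_mul,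
            ← Finset.mul_sum]
          ring
      _ ≤ (2 * (CF n).card + 2 * (2 * R * N * ((2 : ℝ) * (CF n).card))) * B := by gcongr
      _ = (2 + 8 * R * N) * B * (CF n).card := by ring
      _ ≤ _ := by gcongr

theorem log_two_sq (h : ℕ) : 1 ≤ 3 * Real.log ((h : ℝ) + 2) ^ 2 := by
  have := (Run7.h206.SAW.log_facts (n := h + 2) (by omega)).1
  push_cast at this
  exact this

/-- small polygons -/
theorem small {A L E : ℝ} {N : ℕ} (hA : 0 ≤ A) (hL : 0 ≤ L) (hN : 2 ≤ N)
    (hE : L ≤ E) (h : ¬ A * L * (Real.log N / Real.sqrt N) ≤ 1) : (N : ℝ) ≤ ((4 * A + 4) * E) ^ 4 := by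
  have hN2 : (2 : ℝ) ≤ N := by exact_mod_cast hN
  have hN0 : (0 : ℝ) < N := by linarith
  have hs : 0 < Real.sqrt N := Real.sqrt_pos.2 hN0
  obtain ⟨t, ht⟩ : ∃ t, t = Real.sqrt (Real.sqrt N) := ⟨_, rfl⟩
  have ht0 : 0 < t := by rw [ht]; exact Real.sqrt_pos.2 hs
  have ht2 : t ^ 2 = Real.sqrt N := by rw [ht]; exact Real.sq_sqrt hs.le
  have ht4 : t ^ 4 = N := by
    rw [show t ^ 4 = (t ^ 2) ^ 2 by ring, ht2]
    exact Real.sq_sqrt hN0.le
  have h1 : Real.log N ≤ 4 * t := by
    rw [← ht4, Real.log_pow]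
    have h2 := Real.log_le_sub_one_of_pos ht0
    push_cast
    linarith
  rw [not_le, mul_div_assoc', lt_div_iff₀ hs, one_mul, ← ht2] at h
  have h2 : t ≤ (4 * A + 4) * E := by
    by_contra hcon
    rw [not_le] at hcon
    have h3 : A * L * Real.log N ≤ A * L * (4 * t) :=
      mul_le_mul_of_nonneg_left h1 (by positivity)
    have h4 : t * t < (A * L * 4) * t := by nlinarith
    have h5 : t < A * L * 4 := lt_of_mul_lt_mul_right h4 ht0.le
    have h6 : A * L ≤ A * E := mul_le_mul_of_nonneg_left hE hA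
    nlinarith
  rw [← ht4]
  exact pow_le_pow_left₀ ht0.le h2 4

/-- the tail and the mean for one side, for all polygons -/
theorem sideC : ∃ K : ℝ, 0 ≤ K ∧ ∀ N h : ℕ, 2 ≤ N →
    (∀ x : ℝ, 0 ≤ x → (((CF (2 * N - 1)).filter (fun w =>
      (1 + x) * Real.exp (K * Real.log (h + 2) ^ 2) < ((St h w).card : ℝ))).card : ℝ) ≤
        Real.exp (-x) * (CF (2 * N - 1)).card) ∧
    ∑ w ∈ CF (2 * N - 1), ((St h w).card : ℝ) ≤
      Real.exp (K * Real.log (h + 2) ^ 2) * (CF (2 * N - 1)).card := by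
  obtain ⟨K, hK, hconst⟩ := constants
  obtain ⟨A, hA, hgrow⟩ := growC
  have hlA : 0 ≤ Real.log (4 * A + 4) := Real.log_nonneg (by linarith)
  obtain ⟨K', hK'⟩ : ∃ K', K' = 4 * K + 12 * Real.log (4 * A + 4) + 3 := ⟨_, rfl⟩
  refine ⟨K', by rw [hK']; positivity, fun N h hN => ?_⟩
  obtain ⟨ℓ, D, o, hl, hD, R, hR, hRQ, hfin⟩ := hconst h
  have hL := log_two_sq h
  obtain ⟨L, hLe⟩ : ∃ L, L = Real.log ((h : ℝ) + 2) ^ 2 := ⟨_, rfl⟩
  rw [← hLe] at hL hfin ⊢
  have hL0 : 0 ≤ L := by rw [hLe]; positivity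
  by_cases hc : A * ℓ * (Real.log N / Real.sqrt N) ≤ 1
  · have hM : (0 : ℝ) < 3 * (cn (2 * ℓ) : ℝ) := by
      have := cn_real_pos (2 * ℓ)
      linarith
    have h3 : (3 : ℝ) ≤ Real.exp (3 * L) := by
      have h4 : (2 : ℝ) ≤ 3 + 3 * L := by linarith
      have h5 := Real.exp_one_gt_d9
      have h6 : 1.04 ≤ 3 * L ∨ 3 * L < 1.04 := le_or_gt _ _
      have hlog2 := Real.log_two_gt_d9
      have h7 : Real.log 2 ≤ Real.log ((h : ℝ) + 2) := by
        refine Real.log_le_log (by norm_num) ?_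
        have : (0 : ℝ) ≤ h := Nat.cast_nonneg h
        linarith
      have h8 : (0.48 : ℝ) ≤ L := by
        rw [hLe]
        nlinarith
      have h9 : (1.44 : ℝ) ≤ 3 * L := by linarith
      have h10 : Real.exp 1 * (1 + 0.44) ≤ Real.exp (3 * L) := by
        calc Real.exp 1 * (1 + 0.44) ≤ Real.exp 1 * Real.exp 0.44 := by
              have := Real.add_one_le_exp (0.44 : ℝ)
              have h11 := Real.exp_pos 1
              refine mul_le_mul_of_nonneg_left ?_ h11.le
              linarith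
          _ = Real.exp 1.44 := by rw [← Real.exp_add]; norm_num
          _ ≤ _ := Real.exp_le_exp.2 h9
      linarith
    have hfin' : 12 * ((2 * h + 1) * (2 * ℓ + 1) * (h + 1)) * (8 * (h + 1)) * (3 * R) ≤
        Real.exp (K' * Real.log ((h : ℝ) + 2) ^ 2) := by
      rw [← hLe]
      calc 12 * ((2 * h + 1) * (2 * ℓ + 1) * (h + 1)) * (8 * (h + 1)) * (3 * R)
          = 3 * (12 * ((2 * h + 1) * (2 * ℓ + 1) * (h + 1)) * (8 * (h + 1)) * R) := by ring
        _ ≤ Real.exp (3 * L) * Real.exp (K * L) := by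
            refine mul_le_mul h3 hfin ?_ (Real.exp_pos _).le
            positivity
        _ = Real.exp ((K + 3) * L) := by rw [← Real.exp_add]; congr 1; ring
        _ ≤ _ := by
            refine Real.exp_le_exp.2 (mul_le_mul_of_nonneg_right ?_ hL0)
            rw [hK']
            linarith
    have := sideA (n := 2 * N - 1) (h := h) (D := D) (o := o) (K := K') (R := 3 * R)
      (M := 3 * (cn (2 * ℓ) : ℝ)) hl hD (by linarith) hM (by linarith) hfin'
      (hgrow N ℓ hN hl hc)
    rw [← hLe] at this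
    exact this
  · -- small polygons
    have hlE : (ℓ : ℝ) ≤ Real.exp (K * L) := by
      refine le_trans ?_ hfin
      have e1 : (0 : ℝ) ≤ h := Nat.cast_nonneg h
      have e2 : (0 : ℝ) ≤ ℓ := Nat.cast_nonneg ℓ
      have e3 : (ℓ : ℝ) ≤ (2 * h + 1) * (2 * ℓ + 1) * (h + 1) := by
        have e4 : (1 : ℝ) ≤ 2 * h + 1 := by linarith
        have e5 : (1 : ℝ) ≤ (h : ℝ) + 1 := by linarith
        have e6 : (ℓ : ℝ) ≤ 1 * (2 * ℓ + 1) * 1 := by linarith
        refine e6.trans ?_
        gcongr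
      have e7 : (1 : ℝ) ≤ 12 * (8 * (h + 1)) * R := by
        have : (1 : ℝ) ≤ 12 * (8 * (h + 1)) := by linarith
        exact one_le_mul_of_one_le_of_one_le this hR
      calc (ℓ : ℝ) ≤ ((2 * h + 1) * (2 * ℓ + 1) * (h + 1)) * 1 := by linarith
        _ ≤ ((2 * h + 1) * (2 * ℓ + 1) * (h + 1)) * (12 * (8 * (h + 1)) * R) := by gcongr
        _ = _ := by ring
    have h1 := small hA (Nat.cast_nonneg ℓ) hN hlE hc
    have h2 : (2 * N : ℝ) ≤ Real.exp (K' * L) := by
      have h3 : (4 * A + 4) ≤ Real.exp (3 * Real.log (4 * A + 4) * L) := by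
        calc (4 * A + 4) = Real.exp (Real.log (4 * A + 4)) := (Real.exp_log (by linarith)).symm
          _ ≤ _ := by
            refine Real.exp_le_exp.2 ?_
            nlinarith
      have h4 : (2 : ℝ) ≤ Real.exp (3 * L) := by
        have := Real.add_one_le_exp (3 * L)
        linarith
      calc (2 * N : ℝ) ≤ Real.exp (3 * L) * ((4 * A + 4) * Real.exp (K * L)) ^ 4 :=
            mul_le_mul h4 h1 (Nat.cast_nonneg _) (Real.exp_pos _).le
        _ ≤ Real.exp (3 * L) * (Real.exp (3 * Real.log (4 * A + 4) * L) * Real.exp (K * L)) ^ 4 := by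
            gcongr
        _ = Real.exp (K' * L) := by
            rw [← Real.exp_add, ← Real.exp_nat_mul, ← Real.exp_add, hK']
            congr 1
            push_cast
            ring
    have htriv : ∀ w ∈ CF (2 * N - 1), ((St h w).card : ℝ) ≤ Real.exp (K' * L) := by
      intro w hw
      have h3 := card_St_triv (h := h) (mem_CF.1 hw).1 0
      have e : w.map (sy 0) = w := by
        have : sy 0 = id := rfl
        rw [this, List.map_id]
      rw [e] at h3
      have h4 : (St h w).card ≤ 2 * N := by omega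
      have h5 : ((St h w).card : ℝ) ≤ 2 * N := by exact_mod_cast h4
      linarith
    refine ⟨fun x hx => ?_, ?_⟩
    · rw [Finset.filter_false_of_mem, Finset.card_empty, Nat.cast_zero]
      · positivity
      · intro w hw
        have h3 := htriv w hw
        have h4 := Real.exp_pos (K' * L)
        rw [not_lt]
        nlinarith
    · calc ∑ w ∈ CF (2 * N - 1), ((St h w).card : ℝ)
          ≤ ∑ w ∈ CF (2 * N - 1), Real.exp (K' * L) := Finset.sum_le_sum htriv
        _ = _ := by rw [Finset.sum_const, nsmul_eq_mul]; ring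

end Run7.h206.QP
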